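import Pool.Agent.L5helper81.AT.Fin

/-!
# Almost all `r`-graphs with a fixed number of vertices are sums of perfect matchings

A loopless multigraph on `Fin n` is given by its multiplicities `p u v`.  `RGraph r p`: symmetric, zero
on the diagonal, every vertex has degree `r`, and at least `r` edges leave every odd set of vertices.
`Cover k r p`: there are `k * r` perfect matchings (fixed point free involutions) such that every pair
`u v` is matched by exactly `k * p u v` of them (`k = 1`: the graph is `r`-edge-colourable, `k = 2`: the
double cover conjecture).

Proof.  Let `p` be an `r`-graph with `n` vertices which is not `r`-edge-colourable.  The pairs of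
vertices of multiplicity less than a certain `t(n)` (light pairs) form a graph without isolated vertices
(Tashkinov's theorem) in which no set `P` of 16 vertices has the property that every vertex has at most
one neighbour in `P` (`DominatingWeights`, with weight 1 on `P`).  Choose a root in each component and a
neighbour of each root; let `A` be the set of the roots for which these two vertices have no common
neighbour.  The roots and the chosen neighbours of the roots in `A` form a set in which every vertex has
at most one neighbour, so `|A| ≤ 7`, and `|A| ≤ n / 2`.  The light pairs joining the vertices which are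
not roots to their predecessors in a spanning forest, and for each root outside `A` the light pair of its
chosen neighbour and a common neighbour of the two, are different, so there are at least
`s = max (n / 2) (n - 7)` light pairs.

For a given set `F` of `s ≤ n - 3` pairs the complete graph has for each `f` in `F` a perfect matching
`M_f` whose only pair in `F` is `f` (one of the `n - 3` perfect matchings of a `1`-factorisation of the
rest).  If all pairs in `F` are light in `p` and `r` is large, then by Edmonds' theorem there is a perfect
matching `M'` without pairs in `F` which can be removed `c r` times from `p` such that the rest is still a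
regular graph with large odd cuts.  Replacing `Y' = ∑ y f` copies of `M'` by `y f` copies of `M_f` for
every `f` in `F` gives, for every `y : F → {0, ..., Y}`, `Y = c' r`, an `r`-graph, from which `p` and `y`
can be recovered if one knows `M'` and the multiplicities of the pairs in `F` (fewer than `t`) in `p`.
Hence there are at most `C (1 / r) ^ s` times as many such `p` as `r`-graphs.
-/

set_option autoImplicit false

namespace Pool.Agent.L5helper81.AT

open H76FC H76TX Pool.Agent.L5helper81.AM Pool.Agent.L5helper81.AN

/-- For every `n` and `r` there are finitely many `r`-graphs on `n` labelled vertices, and there is a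
number `C` depending only on `n` such that for every `r` the number of those which do not have, for every
`k`, a list of `k * r` perfect matchings covering every edge exactly `k` times, is at most
`C / r ^ max (n / 2) (n - 7)` times the number of all of them. -/
theorem almost_all (n : ℕ) : (∀ r : ℕ, {p : Fin n → Fin n → ℕ | RGraph r p}.Finite) ∧
    ∃ C : ℕ, ∀ r : ℕ, r ^ max (n / 2) (n - 7) *
      {p : Fin n → Fin n → ℕ | RGraph r p ∧ ¬ ∀ k : ℕ, Cover k r p}.ncard ≤
        C * {p : Fin n → Fin n → ℕ | RGraph r p}.ncard := by
  have hfin : ∀ r : ℕ, {p : Fin n → Fin n → ℕ | RGraph r p}.Finite := fun r =>
    Set.finite_coe_iff.1 (Pool.Agent.L5helper81.AT.rg_finite (V := Fin n) r)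
  refine ⟨hfin, ?_⟩
  obtain ⟨C, hC⟩ := Pool.Agent.L5helper81.AT.final n
  refine ⟨C, fun r => le_trans (Nat.mul_le_mul_left _ ?_) (hC r)⟩
  refine Set.ncard_le_ncard (t := {p : Fin n → Fin n → ℕ | RGraph r p ∧ ¬ Cover 1 r p}) ?_
    ((hfin r).subset fun p hp => hp.1)
  rintro p ⟨hp, hk⟩
  refine ⟨hp, fun h1 => hk fun k => ?_⟩
  rcases isEmpty_or_nonempty (Fin n) with hE | hne
  · exact ⟨fun _ v => v, fun _ => ⟨fun v => (hE.false v).elim, fun v => (hE.false v).elim⟩,
      fun v => (hE.false v).elim⟩
  · exact cover_of_mem hp.reg (fun M hM => mem_All.1 hM) (mem_of_cover h1) k

end Pool.Agent.L5helper81.AT
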