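import Pool.Agent.L5helper81.AT.Heavy

/-!
# Counting `r`-graphs with given light pairs
-/

set_option autoImplicit false

namespace Pool.Agent.L5helper81.AT

open Finset H76FC H76TX Pool.Agent.L5helper81.AM Pool.Agent.L5helper81.AN

section
variable {V : Type} [Fintype V] [DecidableEq V]

theorem entry_le {r : ℕ} {p : V → V → ℕ} (hp : RGraph r p) (a b : V) : p a b ≤ r := by
  rw [← hp.reg a]
  exact single_le_sum (f := fun b => p a b) (fun _ _ => Nat.zero_le _) (mem_univ b)

instance rg_finite (r : ℕ) : Finite {p : V → V → ℕ // RGraph r p} := by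
  apply Finite.of_injective
    (fun (p : {p : V → V → ℕ // RGraph r p}) (a b : V) =>
      (⟨p.1 a b, Nat.lt_succ_of_le (entry_le p.2 a b)⟩ : Fin (r + 1)))
  intro p q h
  apply Subtype.ext
  funext a b
  have := congrFun (congrFun h a) b
  exact congrArg Fin.val this

instance rg_finite' (r : ℕ) (P : (V → V → ℕ) → Prop) :
    Finite {p : V → V → ℕ // RGraph r p ∧ P p} := by
  apply Finite.of_injective
    (fun (p : {p : V → V → ℕ // RGraph r p ∧ P p}) => (⟨p.1, p.2.1⟩ : {p : V → V → ℕ // RGraph r p}))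
  intro p q h
  exact Subtype.ext (congrArg (fun x => x.1) h)

theorem rgraph_single {M : V → V} (hM : IsPM M) (j : ℕ) :
    RGraph j (fun a b => if M a = b then j else 0) := by
  have h1 := rgraph_mat (m := fun M' => if M' = M then j else 0) (by
    intro M' h
    by_cases h1 : M' = M
    · rw [h1]; exact hM
    · exact absurd (if_neg h1) h)
  rw [chi_sum] at h1
  have h2 : mat (fun M' => if M' = M then j else 0) = fun a b => if M a = b then j else 0 := by
    funext a b
    exact chi_mat M j a b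
  rwa [h2] at h1

theorem rgraph_zero : RGraph 0 (fun _ _ : V => 0) :=
  ⟨fun _ => rfl, fun _ _ => rfl, fun _ => by simp, fun _ _ => Nat.zero_le _⟩

theorem rgraph_sum {ι : Type} [DecidableEq ι] (M : ι → V → V) (y : ι → ℕ) (s : Finset ι)
    (hM : ∀ i ∈ s, IsPM (M i)) :
    RGraph (∑ i ∈ s, y i) (fun a b => ∑ i ∈ s, if M i a = b then y i else 0) := by
  classical
  induction s using Finset.induction_on with
  | empty => simpa using rgraph_zero (V := V)
  | insert i s hi ih =>
    simp only [sum_insert hi]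
    exact rgraph_add (rgraph_single (hM i (mem_insert_self i s)) (y i))
      (ih fun k hk => hM k (mem_insert_of_mem hk))

/-- the number of `r`-graphs for which given pairs are light -/
theorem count_one (hV : Even (Fintype.card V)) [Nonempty V] {r t : ℕ} (F : Finset (V × V))
    (hF : F.card + 3 ≤ Fintype.card V) (hne : ∀ e ∈ F, e.1 ≠ e.2)
    (hd : ∀ e ∈ F, (e.2, e.1) ∉ F) (hr : Fintype.card V * t < r) (Y : ℕ)
    (hY : Fintype.card (V → V) * (Fintype.card V * Y) + Fintype.card V * t ≤ r) :
    Nat.card {p : V → V → ℕ // RGraph r p ∧ ∀ e ∈ F, p e.1 e.2 < t} * (Y + 1) ^ F.card ≤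
      Nat.card {p : V → V → ℕ // RGraph r p} * (Fintype.card (V → V) * t ^ F.card) := by
  classical
  have hM := fun f (hf : f ∈ F) => exists_only hV F hF hne hd hf
  choose! M hM1 hM2 hM3 using hM
  have hm := fun (p : {p : V → V → ℕ // RGraph r p ∧ ∀ e ∈ F, p e.1 e.2 < t}) =>
    heavy_pm p.2.1 hV F (by omega) p.2.2 hr
  choose m hm1 hm2 hm3 using hm
  set S : (F → Fin (Y + 1)) → ℕ := fun y => ∑ u : F, (y u : ℕ) with hS
  have hSle : ∀ y, S y ≤ Fintype.card V * Y := by
    intro y
    calc S y ≤ ∑ _u : F, Y := sum_le_sum fun u _ => Nat.lt_succ_iff.1 (y u).2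
      _ = F.card * Y := by simp
      _ ≤ _ := Nat.mul_le_mul_right _ (by omega)
  have hSr : ∀ y, Fintype.card (V → V) * S y + Fintype.card V * t ≤ r := by
    intro y
    have := Nat.mul_le_mul_left (Fintype.card (V → V)) (hSle y)
    omega
  have hA1 : 1 ≤ Fintype.card (V → V) := Fintype.card_pos
  have hSr' : ∀ y, S y ≤ r := by
    intro y
    have h1 := hSr y
    have h2 : 1 * S y ≤ Fintype.card (V → V) * S y := Nat.mul_le_mul_right _ hA1
    omega
  set Q : (F → Fin (Y + 1)) → V → V → ℕ := fun y a b =>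
    ∑ u : F, if M u.1 a = b then (y u : ℕ) else 0 with hQ
  have hQR : ∀ y, RGraph (S y) (Q y) := fun y =>
    rgraph_sum (fun u : F => M u.1) (fun u => (y u : ℕ)) univ fun u _ => hM1 u.1 u.2
  have hR : ∀ p y, RGraph r (fun a b => (p.1 a b - if m p a = b then S y else 0) + Q y a b) := by
    intro p y
    have h1 := rgraph_add (hm3 p (S y) (hSr y)).2 (hQR y)
    rwa [Nat.sub_add_cancel (hSr' y)] at h1
  set Φ : {p : V → V → ℕ // RGraph r p ∧ ∀ e ∈ F, p e.1 e.2 < t} × (F → Fin (Y + 1)) →
      {p : V → V → ℕ // RGraph r p} × ((V → V) × (F → Fin t)) := fun x =>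
    (⟨_, hR x.1 x.2⟩, m x.1, fun u => ⟨x.1.1 u.1.1 u.1.2, x.1.2.2 u.1 u.2⟩) with hΦ
  have hinj : Function.Injective Φ := by
    rintro ⟨p, y⟩ ⟨q, z⟩ h
    rw [hΦ] at h
    simp only [Prod.mk.injEq, Subtype.mk.injEq] at h
    obtain ⟨h1, h2, h3⟩ := h
    have e1 : ∀ a b, (p.1 a b - if m p a = b then S y else 0) + Q y a b =
        (q.1 a b - if m q a = b then S z else 0) + Q z a b := fun a b => congrFun (congrFun h1 a) b
    have e3 : ∀ u : F, p.1 u.1.1 u.1.2 = q.1 u.1.1 u.1.2 := fun u =>
      congrArg Fin.val (congrFun h3 u)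
    have eQ : ∀ (y : F → Fin (Y + 1)) (u : F), Q y u.1.1 u.1.2 = y u := by
      intro y u
      simp only [hQ]
      rw [sum_eq_single u]
      · rw [if_pos (hM2 u.1 u.2)]
      · intro v _ hvu
        rw [if_neg (hM3 v.1 v.2 u.1 u.2 fun h' => hvu (Subtype.ext h'.symm))]
      · exact fun h' => absurd (mem_univ _) h'
    have hyz : y = z := by
      funext u
      have h4 := e1 u.1.1 u.1.2
      rw [if_neg (hm2 p u.1 u.2), if_neg (hm2 q u.1 u.2), eQ, eQ, e3] at h4
      apply Fin.ext
      omega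
    subst hyz
    have hpq : p = q := by
      apply Subtype.ext
      funext a b
      have h4 := e1 a b
      have h5 := (hm3 p (S y) (hSr y)).1 a b
      have h6 := (hm3 q (S y) (hSr y)).1 a b
      rw [← h2] at h4 h6
      omega
    rw [hpq]
  have hle := Nat.card_le_card_of_injective Φ hinj
  rw [Nat.card_prod, Nat.card_prod, Nat.card_prod] at hle
  have c1 : Nat.card (F → Fin (Y + 1)) = (Y + 1) ^ F.card := by
    rw [Nat.card_eq_fintype_card, Fintype.card_fun, Fintype.card_fin, Fintype.card_coe]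
  have c2 : Nat.card (F → Fin t) = t ^ F.card := by
    rw [Nat.card_eq_fintype_card, Fintype.card_fun, Fintype.card_fin, Fintype.card_coe]
  rw [c1, c2, Nat.card_eq_fintype_card (α := V → V)] at hle
  exact hle

end

end Pool.Agent.L5helper81.AT
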