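import Pool.Agent.L5helper81.AT.Cnt

/-!
# The light pairs of an `r`-graph which is not a sum of perfect matchings
-/

set_option autoImplicit false

namespace Pool.Agent.L5helper81.AT

open Finset H76FC H76TX Pool.Agent.L5helper81.AM Pool.Agent.L5helper81.AN

/-- a spanning forest, given by the neighbours towards the roots -/
theorem forest {V : Type} (L : SimpleGraph V) : ∃ (ρ g : V → V) (dep : V → ℕ),
    (∀ v, L.Reachable v (ρ v)) ∧ (∀ u v, L.Reachable u v → ρ u = ρ v) ∧
    (∀ v, ρ v ≠ v → L.Adj v (g v) ∧ dep v = dep (g v) + 1) ∧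
    ∀ v, L.Adj v (ρ v) → dep v = 1 := by
  classical
  set ρ : V → V := fun v => Quot.out (L.connectedComponentMk v) with hρ
  have h1 : ∀ v, L.connectedComponentMk (ρ v) = L.connectedComponentMk v := fun v =>
    Quot.out_eq (L.connectedComponentMk v)
  have h2 : ∀ v, L.Reachable v (ρ v) := fun v => (SimpleGraph.ConnectedComponent.exact (h1 v)).symm
  have h3 : ∀ u v, L.Reachable u v → ρ u = ρ v := by
    intro u v h
    simp only [hρ]
    rw [SimpleGraph.ConnectedComponent.sound h]
  have h4 : ∀ v, ∃ w, ρ v ≠ v → L.Adj v w ∧ L.dist v (ρ v) = L.dist w (ρ w) + 1 := by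
    intro v
    by_cases hv : ρ v = v
    · exact ⟨v, fun h => absurd hv h⟩
    obtain ⟨q, hq⟩ := (h2 v).exists_walk_length_eq_dist
    generalize hz : ρ v = z at q hq hv
    cases q with
    | nil => exact absurd rfl hv
    | @cons _ w _ hvw q' =>
      refine ⟨w, fun _ => ⟨hvw, ?_⟩⟩
      have h5 : ρ w = z := by rw [← hz, h3 v w hvw.reachable]
      rw [h5]
      rw [SimpleGraph.Walk.length_cons] at hq
      have h6 : L.dist w z ≤ q'.length := SimpleGraph.dist_le q'
      obtain ⟨q'', hq''⟩ := (q'.reachable).exists_walk_length_eq_dist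
      have h7 := SimpleGraph.dist_le (SimpleGraph.Walk.cons hvw q'')
      rw [SimpleGraph.Walk.length_cons, hq''] at h7
      omega
  choose g hg using h4
  exact ⟨ρ, g, fun v => L.dist v (ρ v), h2, h3, hg, fun v hv => SimpleGraph.dist_eq_one_iff_adj.2 hv⟩

/-- the light pairs of an `r`-graph which is not a sum of perfect matchings -/
theorem structure_of (n : ℕ) (hV : Even n) (h10 : 10 ≤ n) : ∃ t : ℕ, ∀ (r : ℕ)
    (p : Fin n → Fin n → ℕ), RGraph r p → ¬ Cover 1 r p →
    ∃ F : Finset (Fin n × Fin n), F.card = max (n / 2) (n - 7) ∧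
      (∀ e ∈ F, e.1 ≠ e.2) ∧ (∀ e ∈ F, (e.2, e.1) ∉ F) ∧ ∀ e ∈ F, p e.1 e.2 < t := by
  classical
  obtain ⟨t₀, ht₀⟩ := dominated n
  refine ⟨max t₀ n, fun r p hp hnc => ?_⟩
  set t := max t₀ n with ht
  set L : SimpleGraph (Fin n) := SimpleGraph.mk (fun u v => u ≠ v ∧ p u v < t)
    (by constructor; rintro u v ⟨h1, h2⟩; exact ⟨h1.symm, by rw [hp.symm]; exact h2⟩)
    (by constructor; rintro u ⟨h1, -⟩; exact h1 rfl) with hL
  have hadj : ∀ u v, L.Adj u v ↔ u ≠ v ∧ p u v < t := fun u v => Iff.rfl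
  obtain ⟨ρ, g, dep, h1, h2, h3, h4⟩ := forest L
  have hρρ : ∀ v, ρ (ρ v) = ρ v := fun v => h2 _ _ (h1 v).symm
  -- every vertex has a light neighbour
  have hiso : ∀ v, ∃ w, L.Adj v w := by
    intro v
    by_contra hcon
    push Not at hcon
    apply hnc
    refine universal hp (by simpa using hV) v fun w hw => ?_
    have h4 := hcon w
    rw [hadj] at h4
    push Not at h4
    rw [Fintype.card_fin]
    exact (le_max_right _ _).trans (h4 hw.symm)
  choose w hw using hiso
  have hρw : ∀ x, ρ (w x) = ρ x := fun x => (h2 _ _ (hw x).reachable).symm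
  -- a common neighbour of `x` and `w x`, if any
  have hz : ∀ x, ∃ z, (∃ z, L.Adj x z ∧ L.Adj (w x) z) → L.Adj x z ∧ L.Adj (w x) z := by
    intro x
    by_cases h : ∃ z, L.Adj x z ∧ L.Adj (w x) z
    · obtain ⟨z, hz⟩ := h
      exact ⟨z, fun _ => hz⟩
    · exact ⟨x, fun h' => absurd h' h⟩
  choose z hz using hz
  set R : Finset (Fin n) := univ.filter fun v => ρ v = v with hR
  set U : Finset (Fin n) := univ.filter fun v => ρ v ≠ v with hU
  set A : Finset (Fin n) := R.filter fun x => ¬ ∃ z, L.Adj x z ∧ L.Adj (w x) z with hA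
  have hmR : ∀ v, v ∈ R ↔ ρ v = v := fun v => by simp [hR]
  have hmA : ∀ v, v ∈ A ↔ ρ v = v ∧ ¬ ∃ z, L.Adj v z ∧ L.Adj (w v) z := by
    intro v
    rw [hA, mem_filter, hmR]
  have hRU : R.card + U.card = n := by
    have h4 := card_filter_add_card_filter_not (s := (univ : Finset (Fin n))) (fun v => ρ v = v)
    rw [card_univ, Fintype.card_fin] at h4
    exact h4
  have hwinj : ∀ x ∈ R, ∀ y ∈ R, w x = w y → x = y := by
    intro x hx y hy h
    rw [hmR] at hx hy
    rw [← hx, ← hy, ← hρw x, ← hρw y, h]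
  have hwR : ∀ x ∈ R, w x ∉ R := by
    intro x hx h
    rw [hmR] at hx h
    rw [hρw, hx] at h
    exact (hw x).ne h
  have hRle : R.card ≤ U.card := by
    apply card_le_card_of_injOn w
    · intro x hx
      rw [mem_coe] at hx ⊢
      rw [hU, mem_filter]
      exact ⟨mem_univ _, fun h => hwR x hx ((hmR _).2 h)⟩
    · intro x hx y hy hxy
      exact hwinj x hx y hy hxy
  have hAR : A.card ≤ R.card := card_le_card (filter_subset _ _)
  -- the weights
  set P : Finset (Fin n) := R ∪ A.image w with hP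
  have hPc : P.card = R.card + A.card := by
    rw [hP, card_union_of_disjoint, card_image_of_injOn]
    · intro x hx y hy h
      exact hwinj x (filter_subset _ _ hx) y (filter_subset _ _ hy) h
    · rw [disjoint_left]
      intro y hy h
      rw [mem_image] at h
      obtain ⟨x, hx, rfl⟩ := h
      exact hwR x (filter_subset _ _ hx) hy
  have hone : ∀ v, ∀ x ∈ P, ∀ y ∈ P, L.Adj v x → L.Adj v y → x = y := by
    intro v x hx y hy hvx hvy
    have e1 : ρ v = ρ x := h2 _ _ hvx.reachable
    have e2 : ρ v = ρ y := h2 _ _ hvy.reachable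
    rw [hP, mem_union, mem_image] at hx hy
    rcases hx with hx | ⟨x', hx', rfl⟩ <;> rcases hy with hy | ⟨y', hy', rfl⟩
    · rw [hmR] at hx hy
      rw [← hx, ← hy, ← e1, ← e2]
    · exfalso
      rw [hmR] at hx
      rw [hmA] at hy'
      have e3 : x = y' := by rw [← hx, ← e1, e2, hρw, hy'.1]
      subst e3
      exact hy'.2 ⟨v, hvx.symm, hvy.symm⟩
    · exfalso
      rw [hmR] at hy
      rw [hmA] at hx'
      have e3 : y = x' := by rw [← hy, ← e2, e1, hρw, hx'.1]
      subst e3
      exact hx'.2 ⟨v, hvy.symm, hvx.symm⟩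
    · rw [hmA] at hx' hy'
      have e3 : x' = y' := by rw [← hx'.1, ← hy'.1, ← hρw, ← hρw y', ← e1, ← e2]
      rw [e3]
  have hP15 : P.card ≤ 15 := by
    by_contra hcon
    push Not at hcon
    apply hnc
    refine ht₀ r p hp (fun v => if v ∈ P then 1 else 0) (fun v => by split_ifs <;> norm_num) ?_
    intro v
    have e1 : (∑ w, if w ≠ v ∧ p v w < t₀ then (if w ∈ P then (1 : ℝ) else 0) else 0) ≤ 1 := by
      have e2 : (∑ w, if w ≠ v ∧ p v w < t₀ then (if w ∈ P then (1 : ℝ) else 0) else 0) =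
          ((univ.filter fun w => (w ≠ v ∧ p v w < t₀) ∧ w ∈ P).card : ℝ) := by
        rw [card_filter]
        push_cast
        refine sum_congr rfl fun w _ => ?_
        by_cases h4 : w ≠ v ∧ p v w < t₀ <;> by_cases h5 : w ∈ P <;> simp [h4, h5]
      rw [e2]
      have e3 : (univ.filter fun w => (w ≠ v ∧ p v w < t₀) ∧ w ∈ P).card ≤ 1 := by
        rw [card_le_one]
        intro x hx y hy
        rw [mem_filter] at hx hy
        exact hone v x hx.2.2 y hy.2.2
          ((hadj v x).2 ⟨hx.2.1.1.symm, lt_of_lt_of_le hx.2.1.2 (le_max_left _ _)⟩)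
          ((hadj v y).2 ⟨hy.2.1.1.symm, lt_of_lt_of_le hy.2.1.2 (le_max_left _ _)⟩)
      exact_mod_cast e3
    have e4 : (∑ w, if w ∈ P then (1 : ℝ) else 0) = P.card := by
      rw [sum_ite_mem, univ_inter, sum_const, nsmul_eq_mul, mul_one]
    rw [e4]
    have e5 : (16 : ℝ) ≤ P.card := by exact_mod_cast hcon
    linarith
  -- the light pairs
  set φ : Fin n → Fin n × Fin n := fun u => if ρ u = u then (w u, z u) else (u, g u) with hφ
  have hφ1 : ∀ u, ρ u = u → φ u = (w u, z u) := fun u hu => by simp only [hφ]; rw [if_pos hu]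
  have hφ2 : ∀ u, ρ u ≠ u → φ u = (u, g u) := fun u hu => by simp only [hφ]; rw [if_neg hu]
  have hzB : ∀ u, u ∉ A → ρ u = u → L.Adj u (z u) ∧ L.Adj (w u) (z u) := by
    intro u hu hρu
    apply hz
    by_contra hcon
    exact hu ((hmA u).2 ⟨hρu, hcon⟩)
  have hlight : ∀ u, u ∉ A → L.Adj (φ u).1 (φ u).2 := by
    intro u hu
    by_cases hρu : ρ u = u
    · rw [hφ1 u hρu]
      exact (hzB u hu hρu).2
    · rw [hφ2 u hρu]
      exact (h3 u hρu).1
  have hdep1 : ∀ u, u ∉ A → ρ u = u → dep (w u) = 1 ∧ dep (z u) = 1 ∧ ρ (z u) = u := by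
    intro u hu hρu
    have e1 : ρ (w u) = u := by rw [hρw, hρu]
    have e2 : ρ (z u) = u := by rw [← h2 _ _ (hzB u hu hρu).1.reachable, hρu]
    refine ⟨h4 _ ?_, h4 _ ?_, e2⟩
    · rw [e1]; exact (hw u).symm
    · rw [e2]; exact (hzB u hu hρu).1.symm
  have hsame : ∀ u v, u ∉ A → v ∉ A → (φ u = φ v ∨ φ u = ((φ v).2, (φ v).1)) → u = v := by
    intro u v hu hv h
    by_cases hρu : ρ u = u <;> by_cases hρv : ρ v = v
    · rw [hφ1 u hρu, hφ1 v hρv] at h
      have e1 : ρ (w u) = u := by rw [hρw, hρu]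
      have e2 : ρ (w v) = v := by rw [hρw, hρv]
      rcases h with h | h
      · rw [Prod.mk.injEq] at h
        rw [← e1, ← e2, h.1]
      · rw [Prod.mk.injEq] at h
        rw [← e1, h.1]
        exact (hdep1 v hv hρv).2.2
    · exfalso
      rw [hφ1 u hρu, hφ2 v hρv] at h
      have e1 := hdep1 u hu hρu
      have e2 := (h3 v hρv).2
      rcases h with h | h <;> rw [Prod.mk.injEq] at h <;>
        (have a1 := congrArg dep h.1
         have a2 := congrArg dep h.2
         try simp only at a1 a2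
         omega)
    · exfalso
      rw [hφ2 u hρu, hφ1 v hρv] at h
      have e1 := hdep1 v hv hρv
      have e2 := (h3 u hρu).2
      rcases h with h | h <;> rw [Prod.mk.injEq] at h <;>
        (have a1 := congrArg dep h.1
         have a2 := congrArg dep h.2
         try simp only at a1 a2
         omega)
    · rw [hφ2 u hρu, hφ2 v hρv] at h
      rcases h with h | h
      · rw [Prod.mk.injEq] at h
        exact h.1
      · exfalso
        rw [Prod.mk.injEq] at h
        have e1 := (h3 u hρu).2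
        have e2 := (h3 v hρv).2
        have a1 := congrArg dep h.1
        have a2 := congrArg dep h.2
        simp only at a1 a2
        omega
  have hFc : ((Aᶜ).image φ).card = n - A.card := by
    rw [card_image_of_injOn, card_compl, Fintype.card_fin]
    intro u hu v hv h
    rw [mem_coe, mem_compl] at hu hv
    exact hsame u v hu hv (Or.inl h)
  obtain ⟨F, hF, hcard⟩ := exists_subset_card_eq (s := (Aᶜ).image φ) (n := max (n / 2) (n - 7))
    (by rw [hFc]; omega)
  refine ⟨F, hcard, ?_, ?_, ?_⟩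
  · intro e he
    obtain ⟨u, hu, rfl⟩ := mem_image.1 (hF he)
    exact (hlight u (mem_compl.1 hu)).ne
  · intro e he he'
    obtain ⟨u, hu, rfl⟩ := mem_image.1 (hF he)
    obtain ⟨v, hv, hv'⟩ := mem_image.1 (hF he')
    rw [mem_compl] at hu hv
    have e1 := hsame v u hv hu (Or.inr hv')
    rw [e1] at hv'
    have e2 : (φ u).1 = (φ u).2 := congrArg Prod.fst hv'
    exact (hlight u hu).ne e2
  · intro e he
    obtain ⟨u, hu, rfl⟩ := mem_image.1 (hF he)
    exact ((hadj _ _).1 (hlight u (mem_compl.1 hu))).2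

theorem final (n : ℕ) : ∃ C : ℕ, ∀ r : ℕ, r ^ max (n / 2) (n - 7) *
    Nat.card {p : Fin n → Fin n → ℕ // RGraph r p ∧ ¬ Cover 1 r p} ≤
      C * Nat.card {p : Fin n → Fin n → ℕ // RGraph r p} := by
  classical
  by_cases hall : ∀ (r : ℕ) (p : Fin n → Fin n → ℕ), RGraph r p → Cover 1 r p
  · refine ⟨0, fun r => ?_⟩
    have : IsEmpty {p : Fin n → Fin n → ℕ // RGraph r p ∧ ¬ Cover 1 r p} :=
      ⟨fun p => p.2.2 (hall r p.1 p.2.1)⟩
    rw [Nat.card_of_isEmpty, mul_zero]
    exact Nat.zero_le _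
  have hV : Even n := by
    by_contra h
    exact hall fun r p hp => cover_odd hp (by rw [Fintype.card_fin]; exact h)
  have h10 : 10 ≤ n := by
    by_contra h
    apply hall
    intro r p hp
    obtain ⟨h', hh'⟩ := hV
    exact eight' (Fin n) r p (by rw [Fintype.card_fin]; omega) hp
  obtain ⟨t, ht⟩ := structure_of n hV h10
  have hne : Nonempty (Fin n) := ⟨⟨0, by omega⟩⟩
  set s := max (n / 2) (n - 7) with hs
  have hs3 : s + 3 ≤ n := by omega
  set A := Fintype.card (Fin n → Fin n) with hA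
  set Good : Finset (Fin n × Fin n) → Prop := fun F =>
    F.card = s ∧ (∀ e ∈ F, e.1 ≠ e.2) ∧ ∀ e ∈ F, (e.2, e.1) ∉ F with hGood
  set I := Fintype.card {x // Good x} with hI
  set K := A * n + n * t with hK
  refine ⟨K ^ s * (I * (A * t ^ s)) + (n * t) ^ s, fun r => ?_⟩
  set N := Nat.card {p : Fin n → Fin n → ℕ // RGraph r p} with hN
  set B := Nat.card {p : Fin n → Fin n → ℕ // RGraph r p ∧ ¬ Cover 1 r p} with hB
  rcases Nat.lt_or_ge (n * t) r with hr | hr
  · set Y := (r - n * t) / (A * n) with hY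
    have hA0 : 0 < A * n := Nat.mul_pos Fintype.card_pos (by omega)
    have hY1 : A * n * Y ≤ r - n * t := Nat.mul_div_le _ _
    have hY2 : r - n * t < A * n * (Y + 1) := by
      have := Nat.lt_mul_div_succ (r - n * t) hA0
      exact this
    have hBI : B * (Y + 1) ^ s ≤ I * (N * (A * t ^ s)) := by
      have h1 : ∀ p : {p : Fin n → Fin n → ℕ // RGraph r p ∧ ¬ Cover 1 r p},
          ∃ x : {x // Good x}, ∀ e ∈ x.1, p.1 e.1 e.2 < t := by
        intro p
        obtain ⟨F, g1, g2, g3, g4⟩ := ht r p.1 p.2.1 p.2.2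
        exact ⟨⟨F, g1, g2, g3⟩, g4⟩
      choose x hx using h1
      have h2 : B ≤ Nat.card (Σ x : {x // Good x},
          {p : Fin n → Fin n → ℕ // RGraph r p ∧ ∀ e ∈ x.1, p e.1 e.2 < t}) := by
        have hfin : Finite (Σ x : {x // Good x},
            {p : Fin n → Fin n → ℕ // RGraph r p ∧ ∀ e ∈ x.1, p e.1 e.2 < t}) := inferInstance
        refine Nat.card_le_card_of_injective (fun p => ⟨x p, p.1, p.2.1, hx p⟩) ?_
        intro p q h
        apply Subtype.ext
        exact congrArg (fun z : (Σ x : {x // Good x}, {p : Fin n → Fin n → ℕ // RGraph r p ∧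
            ∀ e ∈ x.1, p e.1 e.2 < t}) => z.2.1) h
      rw [Nat.card_sigma] at h2
      calc B * (Y + 1) ^ s ≤ (∑ x : {x // Good x}, Nat.card {p : Fin n → Fin n → ℕ // RGraph r p ∧
            ∀ e ∈ x.1, p e.1 e.2 < t}) * (Y + 1) ^ s := Nat.mul_le_mul_right _ h2
        _ = ∑ x : {x // Good x}, Nat.card {p : Fin n → Fin n → ℕ // RGraph r p ∧
            ∀ e ∈ x.1, p e.1 e.2 < t} * (Y + 1) ^ s := sum_mul _ _ _
        _ ≤ ∑ _x : {x // Good x}, N * (A * t ^ s) := by
            refine sum_le_sum fun x _ => ?_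
            obtain ⟨F, g1, g2, g3⟩ := x
            simp only
            have h3 := count_one (V := Fin n) (by simpa using hV) F (by
              rw [g1, Fintype.card_fin]; exact hs3) g2 g3 (r := r) (t := t) (by
              rw [Fintype.card_fin]; exact hr) Y (by
              rw [Fintype.card_fin, ← hA]
              have e1 : A * (n * Y) = A * n * Y := by ring
              rw [e1]
              exact Nat.add_le_of_le_sub hr.le hY1)
            rw [g1] at h3
            exact h3
        _ = I * (N * (A * t ^ s)) := by rw [sum_const, card_univ, smul_eq_mul]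
    have hrK : r ≤ (Y + 1) * K := by
      have h1 : (Y + 1) * K = A * n * (Y + 1) + (Y + 1) * (n * t) := by
        rw [hK]; ring
      have h2 : 1 * (n * t) ≤ (Y + 1) * (n * t) := Nat.mul_le_mul_right _ (Nat.le_add_left 1 Y)
      have h3 : r < A * n * (Y + 1) + n * t := (Nat.sub_lt_iff_lt_add hr.le).1 hY2
      rw [one_mul] at h2
      rw [h1]
      exact (h3.trans_le (Nat.add_le_add_left h2 _)).le
    calc r ^ s * B ≤ ((Y + 1) * K) ^ s * B := Nat.mul_le_mul_right _ (Nat.pow_le_pow_left hrK s)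
      _ = K ^ s * (B * (Y + 1) ^ s) := by rw [mul_pow]; ring
      _ ≤ K ^ s * (I * (N * (A * t ^ s))) := Nat.mul_le_mul_left _ hBI
      _ = K ^ s * (I * (A * t ^ s)) * N := by ring
      _ ≤ (K ^ s * (I * (A * t ^ s)) + (n * t) ^ s) * N :=
          Nat.mul_le_mul_right _ (Nat.le_add_right _ _)
  · have hBN : B ≤ N := by
      refine Nat.card_le_card_of_injective
        (fun p : {p : Fin n → Fin n → ℕ // RGraph r p ∧ ¬ Cover 1 r p} =>
          (⟨p.1, p.2.1⟩ : {p : Fin n → Fin n → ℕ // RGraph r p})) ?_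
      intro p q h
      exact Subtype.ext (congrArg (fun x => x.1) h)
    calc r ^ s * B ≤ (n * t) ^ s * N := Nat.mul_le_mul (Nat.pow_le_pow_left hr s) hBN
      _ ≤ _ := Nat.mul_le_mul_right _ (Nat.le_add_left _ _)

end Pool.Agent.L5helper81.AT
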