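import Pool.Agent.L5helper81.AN.Dom

/-!
# Perfect matchings which can be removed many times, and perfect matchings avoiding few pairs
-/

set_option autoImplicit false

namespace Pool.Agent.L5helper81.AT

open Finset H76FC H76TX Pool.Agent.L5helper81.AM Pool.Agent.L5helper81.AN

section
variable {V : Type} [Fintype V] [DecidableEq V]

theorem chi_mat (M : V → V) (j : ℕ) (a b : V) :
    mat (fun M' => if M' = M then j else 0) a b = if M a = b then j else 0 := by
  unfold mat
  rw [sum_eq_single M (fun M' _ h => by simp only [if_neg h, zero_mul])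
    (fun h => absurd (mem_univ _) h)]
  simp only [if_true]
  split_ifs <;> simp

theorem chi_sum (M : V → V) (j : ℕ) : ∑ M' : V → V, (if M' = M then j else 0) = j := by
  rw [sum_ite_eq', if_pos (mem_univ _)]

/-- some perfect matching which avoids the light pairs can be removed many times -/
theorem heavy_pm {r t : ℕ} {p : V → V → ℕ} (hp : RGraph r p) (hV : Even (Fintype.card V))
    [Nonempty V] (F : Finset (V × V)) (hF : F.card ≤ Fintype.card V)
    (hg : ∀ e ∈ F, p e.1 e.2 < t) (hr : Fintype.card V * t < r) :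
    ∃ M, IsPM M ∧ (∀ e ∈ F, M e.1 ≠ e.2) ∧ ∀ j : ℕ,
      Fintype.card (V → V) * j + Fintype.card V * t ≤ r →
      (∀ a b, (if M a = b then j else 0) ≤ p a b) ∧
      RGraph (r - j) (fun a b => p a b - if M a = b then j else 0) := by
  classical
  obtain ⟨w, hw1, hw2, hw3⟩ := edmonds hp
  obtain ⟨x⟩ := ‹Nonempty V›
  have h3 : ∑ M, w M = r := by
    have h4 : ∑ b, (p x b : ℝ) = r := by
      rw [← hp.reg x]
      push_cast
      rfl
    rw [← h4]
    simp only [hw3]
    rw [sum_comm]
    refine sum_congr rfl fun M _ => ?_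
    rw [← mul_sum]
    simp [chi]
  have h4 : ∀ Y : Finset V, ∑ M, w M * (out M Y : ℝ) = cut p Y := by
    intro Y
    have h5 : cutL ℝ Y (fun a b => (p a b : ℝ)) = (cut p Y : ℝ) := by
      rw [cutL_apply]
      unfold cut
      push_cast
      rfl
    have h6 : (fun a b => (p a b : ℝ)) = ∑ M, w M • chi ℝ M := by
      funext a b
      rw [hw3]
      simp
    rw [← h5, h6, map_sum]
    refine sum_congr rfl fun M _ => ?_
    rw [map_smul, cutL_chi, smul_eq_mul]
  set G : Finset (V → V) := univ.filter fun M => ∀ e ∈ F, M e.1 ≠ e.2 with hG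
  have hbad : ∑ M ∈ Gᶜ, w M ≤ (Fintype.card V : ℝ) * t := by
    calc ∑ M ∈ Gᶜ, w M ≤ ∑ M ∈ Gᶜ, ∑ u ∈ F, w M * chi ℝ M u.1 u.2 := by
          refine sum_le_sum fun M hM => ?_
          rw [mem_compl, hG, mem_filter] at hM
          push Not at hM
          obtain ⟨u, hu, hug⟩ := hM (mem_univ _)
          calc w M = w M * chi ℝ M u.1 u.2 := by simp [chi, hug]
            _ ≤ _ := single_le_sum (f := fun u : V × V => w M * chi ℝ M u.1 u.2) (fun u _ =>
                mul_nonneg (hw1 M) (by unfold chi; split_ifs <;> norm_num)) hu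
      _ ≤ ∑ M, ∑ u ∈ F, w M * chi ℝ M u.1 u.2 := by
          refine sum_le_sum_of_subset_of_nonneg (subset_univ _) fun M _ _ => ?_
          exact sum_nonneg fun u _ => mul_nonneg (hw1 M) (by unfold chi; split_ifs <;> norm_num)
      _ = ∑ u ∈ F, (p u.1 u.2 : ℝ) := by
          rw [sum_comm]
          exact sum_congr rfl fun u _ => (hw3 u.1 u.2).symm
      _ ≤ ∑ _u ∈ F, (t : ℝ) := sum_le_sum fun u hu => by exact_mod_cast (hg u hu).le
      _ = (F.card : ℝ) * t := by rw [sum_const, nsmul_eq_mul]
      _ ≤ _ := by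
          have : (F.card : ℝ) ≤ Fintype.card V := by exact_mod_cast hF
          exact mul_le_mul_of_nonneg_right this (Nat.cast_nonneg t)
  have hsplit : ∑ M ∈ G, w M + ∑ M ∈ Gᶜ, w M = r := by rw [sum_add_sum_compl, h3]
  have hrR : (Fintype.card V : ℝ) * t < r := by exact_mod_cast hr
  have hGne : G.Nonempty := by
    rw [nonempty_iff_ne_empty]
    intro h
    rw [h, sum_empty] at hsplit
    rw [h] at hbad
    linarith
  obtain ⟨M, hM, hmax⟩ := exists_max_image G w hGne
  have hbig : (r : ℝ) - Fintype.card V * t ≤ Fintype.card (V → V) * w M := by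
    have h1 : ∑ M' ∈ G, w M' ≤ G.card * w M := by
      rw [← nsmul_eq_mul, ← sum_const]
      exact sum_le_sum fun M' h => hmax M' h
    have h2 : (G.card : ℝ) * w M ≤ Fintype.card (V → V) * w M :=
      mul_le_mul_of_nonneg_right (by exact_mod_cast card_le_univ G) (hw1 M)
    linarith
  have hcard : (0 : ℝ) < Fintype.card (V → V) := by
    have : 0 < Fintype.card (V → V) := Fintype.card_pos
    exact_mod_cast this
  have hwM : w M ≠ 0 := by
    intro h
    rw [h, mul_zero] at hbig
    linarith
  have hPM : IsPM M := (hw2 M hwM).1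
  rw [hG, mem_filter] at hM
  refine ⟨M, hPM, hM.2, fun j hj => ?_⟩
  have hjw : (j : ℝ) ≤ w M := by
    have h1 : ((Fintype.card (V → V) * j + Fintype.card V * t : ℕ) : ℝ) ≤ r := by exact_mod_cast hj
    push_cast at h1
    have h2 : (Fintype.card (V → V) : ℝ) * j ≤ Fintype.card (V → V) * w M := by
      push_cast at hbig
      linarith
    exact le_of_mul_le_mul_left h2 hcard
  have hle : ∀ a b, (if M a = b then j else 0) ≤ p a b := by
    intro a b
    split_ifs with hab
    · have h1 : (j : ℝ) ≤ p a b := by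
        rw [hw3]
        calc (j : ℝ) ≤ w M * chi ℝ M a b := by simpa [chi, hab] using hjw
          _ ≤ _ := single_le_sum (f := fun M => w M * chi ℝ M a b) (fun M _ =>
              mul_nonneg (hw1 M) (by unfold chi; split_ifs <;> norm_num)) (mem_univ M)
      exact_mod_cast h1
    · exact Nat.zero_le _
  refine ⟨hle, ?_⟩
  set m : (V → V) → ℕ := fun M' => if M' = M then j else 0 with hm
  have hmpm : ∀ M', m M' ≠ 0 → IsPM M' := by
    intro M' h
    by_cases h1 : M' = M
    · rw [h1]; exact hPM
    · exact absurd (if_neg h1) h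
  have hsum : ∑ M', m M' = j := chi_sum M j
  have hmat : ∀ a b, mat m a b = if M a = b then j else 0 := chi_mat M j
  have hcut : ∀ Y, cut (mat m) Y = j * out M Y := by
    intro Y
    rw [cut_mat, sum_eq_single M (fun M' _ h => by rw [show m M' = 0 from if_neg h, zero_mul])
      (fun h => absurd (mem_univ _) h), show m M = j from if_pos rfl]
  have key := rgraph_sub hp hV hmpm (fun a b => by rw [hmat]; exact hle a b) (by
    intro X hX _ _
    rw [hcut, hsum]
    have h1 : (r : ℝ) + j * out M X ≤ cut p X + j := by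
      rw [← h4, ← h3]
      have h5 : ∀ M', w M' ≤ w M' * (out M' X : ℝ) := by
        intro M'
        by_cases h : w M' = 0
        · rw [h, zero_mul]
        · have h7 := out_odd (hw2 M' h).1 hX
          have h8 : (1 : ℝ) ≤ out M' X := by exact_mod_cast h7
          calc w M' = w M' * 1 := (mul_one _).symm
            _ ≤ _ := mul_le_mul_of_nonneg_left h8 (hw1 M')
      have h6 : ∑ M' ∈ univ.erase M, w M' ≤ ∑ M' ∈ univ.erase M, w M' * (out M' X : ℝ) :=
        sum_le_sum fun M' _ => h5 M'
      rw [← add_sum_erase univ w (mem_univ M),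
        ← add_sum_erase univ (fun M' => w M' * (out M' X : ℝ)) (mem_univ M)]
      have h7 : (1 : ℝ) ≤ out M X := by exact_mod_cast out_odd hPM hX
      have h8 : 0 ≤ (w M - j) * ((out M X : ℝ) - 1) :=
        mul_nonneg (by linarith) (by linarith)
      nlinarith
    exact_mod_cast h1)
  rw [hsum] at key
  have he : (fun a b => p a b - mat m a b) = fun a b => p a b - if M a = b then j else 0 := by
    funext a b
    rw [hmat]
  rw [he] at key
  exact key

/-- the perfect matching `c` of the standard `1`-factorisation of the complete graph with `N + 1`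
vertices, `N` odd -/
def fac {N : ℕ} (c : ZMod N) : Option (ZMod N) → Option (ZMod N)
  | none => some c
  | some x => if x = c then none else some (2 * c - x)

theorem two_cancel {N : ℕ} (hN : Odd N) {x y : ZMod N} (h : 2 * x = 2 * y) : x = y := by
  obtain ⟨k, hk⟩ := hN
  have h1 : (2 * (k + 1) : ZMod N) = 1 := by
    have h2 : ((N : ℕ) : ZMod N) = 0 := ZMod.natCast_self N
    have h3 : ((2 * k + 1 : ℕ) : ZMod N) = 0 := by rw [← hk]; exact h2
    push_cast at h3
    linear_combination h3
  calc x = (2 * (k + 1) : ZMod N) * x := by rw [h1, one_mul]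
    _ = (k + 1 : ZMod N) * (2 * x) := by ring
    _ = (k + 1 : ZMod N) * (2 * y) := by rw [h]
    _ = (2 * (k + 1) : ZMod N) * y := by ring
    _ = y := by rw [h1, one_mul]

theorem fac_fac {N : ℕ} (hN : Odd N) (c : ZMod N) (x : Option (ZMod N)) : fac c (fac c x) = x := by
  cases x with
  | none => simp [fac]
  | some x =>
    by_cases h : x = c
    · simp [fac, h]
    · have h1 : ¬ (2 * c - x = c) := by
        intro h2
        apply h
        linear_combination (-1 : ZMod N) * h2
      simp only [fac, if_neg h, if_neg h1]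
      congr 1
      ring

theorem fac_ne {N : ℕ} (hN : Odd N) (c : ZMod N) (x : Option (ZMod N)) : fac c x ≠ x := by
  cases x with
  | none => simp [fac]
  | some x =>
    by_cases h : x = c
    · simp [fac, h]
    · simp only [fac, if_neg h]
      intro h2
      apply h
      have h3 := Option.some.inj h2
      have h4 : 2 * x = 2 * c := by linear_combination (-1 : ZMod N) * h3
      exact two_cancel hN h4

theorem fac_inj {N : ℕ} (hN : Odd N) {c d : ZMod N} {x : Option (ZMod N)}
    (h : fac c x = fac d x) : c = d := by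
  cases x with
  | none => simpa [fac] using h
  | some x =>
    by_cases h1 : x = c
    · by_cases h2 : x = d
      · rw [← h1, ← h2]
      · simp [fac, h1] at h
        exact absurd h (by rw [← h1]; exact h2)
    · by_cases h2 : x = d
      · simp only [fac, if_neg h1, if_pos h2] at h
        exact absurd h (by simp)
      · simp only [fac, if_neg h1, if_neg h2] at h
        have h3 := Option.some.inj h
        exact two_cancel hN (by linear_combination h3)

/-- a perfect matching through one of few pairs, without the others -/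
theorem exists_only (hV : Even (Fintype.card V)) (F : Finset (V × V))
    (hF : F.card + 3 ≤ Fintype.card V) (hne : ∀ e ∈ F, e.1 ≠ e.2)
    (hd : ∀ e ∈ F, (e.2, e.1) ∉ F) {f : V × V} (hf : f ∈ F) :
    ∃ M, IsPM M ∧ M f.1 = f.2 ∧ ∀ e ∈ F, e ≠ f → M e.1 ≠ e.2 := by
  classical
  obtain ⟨a, b⟩ := f
  simp only
  have hab : b ≠ a := (hne _ hf).symm
  -- it suffices to find an involution of the rest
  suffices H : ∃ σ : V → V, (∀ v, v ≠ a → v ≠ b → σ v ≠ a ∧ σ v ≠ b ∧ σ v ≠ v ∧ σ (σ v) = v) ∧
      ∀ e ∈ F, e ≠ (a, b) → e.1 ≠ a → e.1 ≠ b → σ e.1 ≠ e.2 by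
    obtain ⟨σ, h1, h2⟩ := H
    refine ⟨fun v => if v = a then b else if v = b then a else σ v, ⟨?_, ?_⟩, ?_, ?_⟩
    · intro v
      by_cases hva : v = a
      · simp [hva, hab]
      · by_cases hvb : v = b
        · simp [hvb, hab]
        · obtain ⟨g1, g2, g3, g4⟩ := h1 v hva hvb
          simp only [if_neg hva, if_neg hvb, if_neg g1, if_neg g2, g4]
    · intro v
      by_cases hva : v = a
      · simp [hva, hab]
      · by_cases hvb : v = b
        · simp only [if_neg hva, if_pos hvb]
          rw [hvb]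
          exact hab.symm
        · obtain ⟨g1, g2, g3, g4⟩ := h1 v hva hvb
          simp only [if_neg hva, if_neg hvb]
          exact g3
    · simp
    · rintro ⟨u, v⟩ hu hua
      simp only
      by_cases h3 : u = a
      · simp only [if_pos h3]
        intro h
        exact hua (by rw [h3, h])
      · by_cases hub : u = b
        · simp only [if_neg h3, if_pos hub]
          intro h
          apply hd _ hf
          simp only
          rw [← hub, h]
          exact hu
        · simp only [if_neg h3, if_neg hub]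
          exact h2 _ hu hua h3 hub
  obtain ⟨N, hN⟩ : ∃ N, Fintype.card V = N + 3 := ⟨Fintype.card V - 3, by omega⟩
  have hNo : Odd N := by
    rw [← Nat.not_even_iff_odd]
    intro h
    rw [hN] at hV
    have h1 := (Nat.even_add.1 hV).1 h
    exact absurd h1 (by decide)
  have hN0 : NeZero N := ⟨fun h => by rw [h] at hNo; exact absurd hNo (by decide)⟩
  have hcard : Fintype.card {v : V // v ≠ a ∧ v ≠ b} = Fintype.card (Option (ZMod N)) := by
    rw [Fintype.card_option, ZMod.card, Fintype.card_subtype]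
    have h1 : (univ.filter fun v : V => v ≠ a ∧ v ≠ b) = (univ.erase a).erase b := by
      ext v
      simp [and_comm]
    rw [h1, card_erase_of_mem (mem_erase.2 ⟨hab, mem_univ _⟩), card_erase_of_mem (mem_univ _),
      card_univ]
    omega
  set E : {v : V // v ≠ a ∧ v ≠ b} ≃ Option (ZMod N) := Fintype.equivOfCardEq hcard with hE
  set σ : ZMod N → V → V := fun c v =>
    if h : v ≠ a ∧ v ≠ b then (E.symm (fac c (E ⟨v, h⟩))).1 else v with hσ
  have hσ1 : ∀ c v (h : v ≠ a ∧ v ≠ b), σ c v = (E.symm (fac c (E ⟨v, h⟩))).1 := by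
    intro c v h
    simp only [hσ]
    rw [dif_pos h]
  have hmem : ∀ c v, v ≠ a → v ≠ b → σ c v ≠ a ∧ σ c v ≠ b := by
    intro c v h1 h2
    rw [hσ1 c v ⟨h1, h2⟩]
    exact (E.symm (fac c (E ⟨v, ⟨h1, h2⟩⟩))).2
  have huniq : ∀ c d v, v ≠ a → v ≠ b → σ c v = σ d v → c = d := by
    intro c d v h1 h2 h
    rw [hσ1 c v ⟨h1, h2⟩, hσ1 d v ⟨h1, h2⟩] at h
    exact fac_inj hNo (E.symm.injective (Subtype.ext h))
  -- one of the matchings avoids all pairs
  obtain ⟨c, hc⟩ : ∃ c : ZMod N, ∀ e ∈ F.erase (a, b), e.1 ≠ a → e.1 ≠ b → σ c e.1 ≠ e.2 := by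
    by_contra hcon
    push Not at hcon
    choose e h1 h2 h3 h4 using hcon
    have h5 : Function.Injective e := by
      intro c d h
      apply huniq c d (e c).1 (h2 c) (h3 c)
      rw [h4 c, h, h4 d]
    have h6 : (univ : Finset (ZMod N)).card ≤ (F.erase (a, b)).card :=
      card_le_card_of_injOn e (fun c _ => h1 c) (fun c _ d _ h => h5 h)
    rw [card_univ, ZMod.card, card_erase_of_mem hf] at h6
    have h7 : 0 < F.card := card_pos.2 ⟨_, hf⟩
    omega
  refine ⟨σ c, fun v hva hvb => ⟨(hmem c v hva hvb).1, (hmem c v hva hvb).2, ?_, ?_⟩, ?_⟩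
  · rw [hσ1 c v ⟨hva, hvb⟩]
    intro h
    have h1 : E.symm (fac c (E ⟨v, ⟨hva, hvb⟩⟩)) = ⟨v, ⟨hva, hvb⟩⟩ := Subtype.ext h
    rw [Equiv.symm_apply_eq] at h1
    exact fac_ne hNo c _ h1
  · have h0 := hmem c v hva hvb
    rw [hσ1 c (σ c v) h0]
    have h1 : (⟨σ c v, h0⟩ : {v : V // v ≠ a ∧ v ≠ b}) = E.symm (fac c (E ⟨v, ⟨hva, hvb⟩⟩)) :=
      Subtype.ext (hσ1 c v ⟨hva, hvb⟩)
    rw [h1, Equiv.apply_symm_apply, fac_fac hNo, Equiv.symm_apply_apply]
  · intro e he hne' h1 h2
    exact hc e (mem_erase.2 ⟨hne', he⟩) h1 h2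

end

end Pool.Agent.L5helper81.AT
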